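import Pool.Agent.W209.KT.Stm

set_option autoImplicit false

/-! Project KT, part CB -/

namespace Pool.Agent.W195.KT

open Pool.Agent.W209.KT

theorem nrm_sub (a b : ℝ) : nrm (a - b) ≤ nrm a + nrm b := by
  unfold nrm
  have h1 := round_le (a - b) (round a - round b)
  refine h1.trans ?_
  push_cast
  have e : a - b - ((round a : ℝ) - (round b : ℝ)) = (a - round a) - (b - round b) := by ring
  rw [e]
  exact abs_sub _ _

open Classical in
theorem cnt_eq (α : Fin 2 → ℝ) (L : ℕ) (ψ : ℝ) : cnt α L ψ =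
    ((Finset.Icc (-(L : ℤ)) (L : ℤ)).filter (fun y : ℤ => ∀ j, nrm (α j * y) ≤ ψ)).card := by
  rw [← Set.ncard_coe_finset, cnt]
  congr 1
  ext y
  simp only [Set.mem_setOf_eq, Finset.coe_filter, Finset.mem_Icc, abs_le]

theorem cnt_triv (α : Fin 2 → ℝ) (L : ℕ) (ψ : ℝ) : cnt α L ψ ≤ 2 * L + 1 := by
  classical
  rw [cnt_eq]
  refine (Finset.card_filter_le _ _).trans ?_
  rw [Int.card_Icc]
  omega

theorem cnt_split (α : Fin 2 → ℝ) (L L0 : ℕ) (ψ : ℝ) (h0 : 1 ≤ L0) :
    cnt α L ψ ≤ cnt α L0 (2 * ψ) * (2 * L / L0 + 1) := by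
  classical
  have hz : (0 : ℤ) < (L0 : ℤ) := by exact_mod_cast h0
  rw [cnt_eq α L, cnt_eq α L0]
  have key := Finset.card_le_mul_card_image_of_maps_to
    (s := (Finset.Icc (-(L : ℤ)) (L : ℤ)).filter (fun y : ℤ => ∀ j, nrm (α j * y) ≤ ψ))
    (t := Finset.Icc (0 : ℤ) ((2 * L / L0 : ℕ) : ℤ)) (f := fun y : ℤ => (y + L) / (L0 : ℤ)) (by
      intro y hy
      rw [Finset.mem_filter, Finset.mem_Icc] at hy
      rw [Finset.mem_Icc]
      constructor
      · exact Int.ediv_nonneg (by linarith [hy.1.1]) hz.le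
      · push_cast
        exact Int.ediv_le_ediv hz (by linarith [hy.1.2]))
    (((Finset.Icc (-(L0 : ℤ)) (L0 : ℤ)).filter (fun y : ℤ => ∀ j, nrm (α j * y) ≤ 2 * ψ)).card) (by
      intro b _
      rcases Finset.eq_empty_or_nonempty (Finset.filter (fun a : ℤ => (a + L) / (L0 : ℤ) = b)
        ((Finset.Icc (-(L : ℤ)) (L : ℤ)).filter (fun y : ℤ => ∀ j, nrm (α j * y) ≤ ψ))) with he | he
      · rw [he]; simp
      · obtain ⟨y1, hy1⟩ := he
        rw [Finset.mem_filter, Finset.mem_filter] at hy1
        refine Finset.card_le_card_of_injOn (fun y => y - y1) ?_ ?_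
        · intro y hy
          rw [Finset.mem_coe, Finset.mem_filter, Finset.mem_filter] at hy
          rw [Finset.mem_coe, Finset.mem_filter, Finset.mem_Icc]
          have e1 := Int.emod_add_mul_ediv (y + L) (L0 : ℤ)
          have e2 := Int.emod_add_mul_ediv (y1 + L) (L0 : ℤ)
          have m1 := Int.emod_nonneg (y + L) hz.ne'
          have m2 := Int.emod_nonneg (y1 + L) hz.ne'
          have m3 := Int.emod_lt_of_pos (y + L) hz
          have m4 := Int.emod_lt_of_pos (y1 + L) hz
          rw [hy.2] at e1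
          rw [hy1.2] at e2
          refine ⟨⟨by linarith, by linarith⟩, fun j => ?_⟩
          have h5 : α j * ((y - y1 : ℤ) : ℝ) = α j * y - α j * y1 := by push_cast; ring
          have h5' : nrm (α j * ((fun y => y - y1) y : ℤ)) = nrm (α j * y - α j * y1) := by
            show nrm (α j * ((y - y1 : ℤ) : ℝ)) = _
            rw [h5]
          rw [h5']
          have h6 := nrm_sub (α j * y) (α j * y1)
          have h7 := hy.1.2 j
          have h8 := hy1.1.2 j
          linarith
        · intro y _ y' _ hyy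
          have : y - y1 = y' - y1 := hyy
          linarith)
  refine key.trans ?_
  apply Nat.mul_le_mul_left
  generalize 2 * L / L0 = q
  rw [Int.card_Icc]
  clear key
  omega

theorem CB (h : S_CB0) : S_CB := by
  obtain ⟨C0, hC0, h⟩ := h
  refine ⟨120 + 480 * C0, by positivity, fun A s hG k L ψ hψ h1 hL => ?_⟩
  have hD0 : (0 : ℝ) < (D k : ℝ) := by
    unfold D; positivity
  have hF : 0 < F k := by
    unfold F; positivity
  have hLr : (1 : ℝ) ≤ L := by exact_mod_cast hL
  have hL0r : (0 : ℝ) < L := by linarith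
  set d : ℝ := (D k : ℝ) with hd
  set w : ℝ := ψ * d ^ 36 with hw
  have hw0 : 0 < w := by positivity
  set M : ℝ := min (d * ψ * F k) L / d ^ 2 with hM
  have hM0 : 0 ≤ M := by
    apply div_nonneg (le_min (by positivity) hL0r.le) (by positivity)
  set Y : ℝ := L * d * ψ / F k with hY
  have hY0 : 0 ≤ Y := by positivity
  have hLw : 0 ≤ (L : ℝ) / w := by positivity
  rcases lt_or_ge w 40 with hc | hc
  · -- trivial bound
    have h2 : (cnt (fun j => A j 10) L ψ : ℝ) ≤ 2 * L + 1 := by
      exact_mod_cast cnt_triv _ L ψ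
    have h3 : (L : ℝ) / 40 ≤ L / w := div_le_div_of_nonneg_left hL0r.le hw0 hc.le
    have h4 : (3 : ℝ) * L ≤ 120 * (1 + L / w + Y) := by linarith
    calc (cnt (fun j => A j 10) L ψ : ℝ) ≤ 3 * L := by linarith
      _ ≤ 120 * (1 + L / w + Y) := h4
      _ = 120 * (1 + L / w + Y) * 1 := (mul_one _).symm
      _ ≤ (120 + 480 * C0) * (1 + L / w + Y) * (1 + M) := by
          apply mul_le_mul _ (by linarith) zero_le_one (by positivity)
          exact mul_le_mul_of_nonneg_right (by linarith) (by positivity)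
  · have hw1 : 1 ≤ w / 40 := by rw [le_div_iff₀ (by norm_num)]; linarith
    set L0 : ℕ := ⌊w / 40⌋₊ with hL0
    have l1 : (L0 : ℝ) ≤ w / 40 := Nat.floor_le (by positivity)
    have l2 : w / 40 < L0 + 1 := Nat.lt_floor_add_one _
    have l3 : 1 ≤ L0 := Nat.one_le_floor_iff _ |>.2 hw1
    have l3r : (1 : ℝ) ≤ L0 := by exact_mod_cast l3
    have l4 : w / 80 ≤ L0 := by linarith
    have h100 : ψ * 100 * d ≤ 1 := by
      have : 0 < ψ * 100 * d := by positivity
      linarith
    rcases le_or_gt L L0 with hLL | hLL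
    · have hLL' : (L : ℝ) ≤ L0 := by exact_mod_cast hLL
      have h2 := h A s hG k L ψ hψ h100 hL (by
        rw [← hd, ← hw]
        linarith)
      rw [← hd, ← hY, ← hM] at h2
      refine h2.trans ?_
      apply mul_le_mul_of_nonneg_right _ (by positivity)
      calc C0 * (1 + Y) ≤ (120 + 480 * C0) * (1 + Y) :=
            mul_le_mul_of_nonneg_right (by linarith) (by positivity)
        _ ≤ (120 + 480 * C0) * (1 + L / w + Y) :=
            mul_le_mul_of_nonneg_left (by linarith) (by positivity)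
    · have hLL' : (L0 : ℝ) ≤ L := by exact_mod_cast hLL.le
      have h2 := h A s hG k L0 (2 * ψ) (by positivity) (by rw [← hd]; linarith) l3 (by
        rw [← hd]
        have : 2 * ψ * d ^ 36 = 2 * w := by rw [hw]; ring
        rw [this]
        linarith)
      rw [← hd] at h2
      have h3 := cnt_split (fun j => A j 10) L L0 ψ l3
      have h4 : (cnt (fun j => A j 10) L ψ : ℝ) ≤
          cnt (fun j => A j 10) L0 (2 * ψ) * ((2 * L / L0 : ℕ) + 1) := by exact_mod_cast h3
      have h5 : ((2 * L / L0 : ℕ) : ℝ) + 1 ≤ 3 * (L / L0) := by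
        have h6 : ((2 * L / L0 : ℕ) : ℝ) ≤ ((2 * L : ℕ) : ℝ) / (L0 : ℝ) := Nat.cast_div_le
        push_cast at h6
        have h7 : 1 ≤ (L : ℝ) / L0 := by rw [le_div_iff₀ (by linarith)]; linarith
        have h8 : 2 * (L : ℝ) / L0 = 2 * (L / L0) := by ring
        linarith
      have hmin : min (d * (2 * ψ) * F k) (L0 : ℝ) / d ^ 2 ≤ 2 * M := by
        rw [hM, ← mul_div_assoc]
        apply div_le_div_of_nonneg_right _ (by positivity)
        rw [mul_min_of_nonneg _ _ (by norm_num : (0:ℝ) ≤ 2)]
        apply min_le_min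
        · apply le_of_eq; ring
        · linarith
      have h9 : (cnt (fun j => A j 10) L0 (2 * ψ) : ℝ) ≤
          C0 * (1 + 2 * (L0 * d * ψ / F k)) * (2 * (1 + M)) := by
        refine h2.trans ?_
        have e : (L0 : ℝ) * d * (2 * ψ) / F k = 2 * (L0 * d * ψ / F k) := by ring
        rw [e]
        apply mul_le_mul_of_nonneg_left _ (by positivity)
        linarith
      have hq0 : 0 ≤ (L : ℝ) / L0 := by positivity
      have h10 : (L : ℝ) / L0 ≤ 80 * (L / w) := by
        rw [div_le_iff₀ (by linarith)]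
        calc (L : ℝ) = 80 * (L / w) * (w / 80) := by field_simp
          _ ≤ 80 * (L / w) * L0 := mul_le_mul_of_nonneg_left l4 (by positivity)
      have h11 : (L : ℝ) / L0 * (L0 * d * ψ / F k) = Y := by
        rw [hY]
        have : (L0 : ℝ) ≠ 0 := by positivity
        field_simp
      calc (cnt (fun j => A j 10) L ψ : ℝ)
          ≤ cnt (fun j => A j 10) L0 (2 * ψ) * ((2 * L / L0 : ℕ) + 1) := h4
        _ ≤ (C0 * (1 + 2 * (L0 * d * ψ / F k)) * (2 * (1 + M))) * (3 * (L / L0)) :=
            mul_le_mul h9 h5 (by positivity) (by positivity)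
        _ = 6 * C0 * (L / L0 + 2 * (L / L0 * (L0 * d * ψ / F k))) * (1 + M) := by ring
        _ = 6 * C0 * (L / L0 + 2 * Y) * (1 + M) := by rw [h11]
        _ ≤ (120 + 480 * C0) * (1 + L / w + Y) * (1 + M) := by
            apply mul_le_mul_of_nonneg_right _ (by positivity)
            calc 6 * C0 * (L / L0 + 2 * Y) ≤ 6 * C0 * (80 * (L / w) + 80 * Y) :=
                  mul_le_mul_of_nonneg_left (by linarith) (by positivity)
              _ = (480 * C0) * (L / w + Y) := by ring
              _ ≤ (120 + 480 * C0) * (1 + L / w + Y) :=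
                  mul_le_mul (by linarith) (by linarith) (by positivity) (by positivity)

end Pool.Agent.W195.KT
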